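import Pool.Agent.Helper56.Havet.Embed

/-!
# Havet's conjecture for oriented trees with `k` edges and at least `k - 1` leaves
-/

set_option autoImplicit false

namespace Pool.Agent.Results.MP_35582f_co.DoubleStars

open Finset Pool.Helper56.Havet
open scoped Classical

/-- Passing to a critical oriented subgraph. -/
theorem reduce {V : Type} [Fintype V] (D : V → V → Prop) (n : ℕ)
    (h : ((n + 1 : ℕ) : ℕ∞) ≤ (SimpleGraph.fromRel D).chromaticNumber) :
    ∃ (V' : Type) (_ : Fintype V') (O : V' → V' → Prop) (g : V' → V),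
      Function.Injective g ∧ (∀ x y, O x y → D (g x) (g y)) ∧ (∀ x y, O x y → ¬ O y x) ∧
      ¬ Col O univ n ∧ ∀ v, n ≤ (No O v).card + (Ni O v).card := by
  let e := Fintype.equivFin V
  obtain ⟨O, hOd⟩ : ∃ O : V → V → Prop,
      ∀ x y, O x y ↔ (x ≠ y ∧ D x y ∧ (¬ D y x ∨ e x < e y)) := ⟨_, fun _ _ => Iff.rfl⟩
  have hO : ∀ x y, O x y → ¬ O y x := by
    intro x y hxy hyx
    obtain ⟨h1, h2, h3⟩ := (hOd x y).1 hxy
    obtain ⟨h4, h5, h6⟩ := (hOd y x).1 hyx
    rcases h3 with h3 | h3
    · exact h3 h5
    · rcases h6 with h6 | h6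
      · exact h6 h2
      · exact absurd h3 (not_lt.2 h6.le)
  have hcol : ¬ Col O univ n := by
    rintro ⟨c, hc1, hc2⟩
    have hC : (SimpleGraph.fromRel D).Colorable n := by
      refine ⟨SimpleGraph.Coloring.mk (fun x => (⟨c x, hc1 x (mem_univ x)⟩ : Fin n)) ?_⟩
      intro x y hxy heq
      rw [SimpleGraph.fromRel_adj] at hxy
      have heq' : c x = c y := by simpa using heq
      have hor : O x y ∨ O y x := by
        rw [hOd, hOd]
        obtain ⟨hne, h1 | h1⟩ := hxy
        · by_cases h2 : D y x
          · rcases lt_or_gt_of_ne (fun h => hne (e.injective h)) with h3 | h3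
            · exact Or.inl ⟨hne, h1, Or.inr h3⟩
            · exact Or.inr ⟨hne.symm, h2, Or.inr h3⟩
          · exact Or.inl ⟨hne, h1, Or.inl h2⟩
        · by_cases h2 : D x y
          · rcases lt_or_gt_of_ne (fun h => hne (e.injective h)) with h3 | h3
            · exact Or.inl ⟨hne, h2, Or.inr h3⟩
            · exact Or.inr ⟨hne.symm, h1, Or.inr h3⟩
          · exact Or.inr ⟨hne.symm, h1, Or.inl h2⟩
      rcases hor with h1 | h1
      · exact hc2 x (mem_univ _) y (mem_univ _) h1 heq'
      · exact hc2 y (mem_univ _) x (mem_univ _) h1 heq'.symm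
    have h1 := h.trans hC.chromaticNumber_le
    have h2 : n + 1 ≤ n := by exact_mod_cast h1
    omega
  obtain ⟨S, hS, hmin⟩ : ∃ S : Finset V, ¬ Col O S n ∧ ∀ T ⊂ S, Col O T n := by
    by_contra hcon
    push Not at hcon
    have hall : ∀ S : Finset V, Col O S n := by
      intro S
      induction S using Finset.strongInduction with
      | H S ih =>
        by_contra hS
        obtain ⟨T, hT, hT'⟩ := hcon S hS
        exact hT' (ih T hT)
    exact hcol (hall univ)
  refine ⟨{x // x ∈ S}, inferInstance, fun x y => O x.1 y.1, Subtype.val,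
    Subtype.val_injective, fun x y hxy => ((hOd _ _).1 hxy).2.1, fun x y => hO x.1 y.1, ?_, ?_⟩
  · rintro ⟨c, hc1, hc2⟩
    apply hS
    refine ⟨fun x => if h : x ∈ S then c ⟨x, h⟩ else 0, ?_, ?_⟩
    · intro x hx
      simp only [hx, dif_pos]
      exact hc1 ⟨x, hx⟩ (mem_univ _)
    · intro x hx y hy hxy
      simp only [hx, hy, dif_pos]
      exact hc2 ⟨x, hx⟩ (mem_univ _) ⟨y, hy⟩ (mem_univ _) hxy
  · intro v
    by_contra hcon
    push Not at hcon
    obtain ⟨c, hc1, hc2⟩ := hmin (S.erase v.1) (erase_ssubset v.2)
    have h2 : Col (fun x y : {x // x ∈ S} => O x.1 y.1) univ n := by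
      refine col_univ_of_erase (fun x y => hO x.1 y.1) v ⟨fun x => c x.1, ?_, ?_⟩ hcon
      · intro x hx
        exact hc1 x.1 (mem_erase.2 ⟨fun he => hx (Subtype.ext he), x.2⟩)
      · intro x hx y hy hxy
        exact hc2 x.1 (mem_erase.2 ⟨fun he => hx (Subtype.ext he), x.2⟩)
          y.1 (mem_erase.2 ⟨fun he => hy (Subtype.ext he), y.2⟩) hxy
    obtain ⟨c', hc1', hc2'⟩ := h2
    apply hS
    refine ⟨fun x => if h : x ∈ S then c' ⟨x, h⟩ else 0, ?_, ?_⟩
    · intro x hx
      simp only [hx, dif_pos]
      exact hc1' ⟨x, hx⟩ (mem_univ _)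
    · intro x hx y hy hxy
      simp only [hx, hy, dif_pos]
      exact hc2' ⟨x, hx⟩ (mem_univ _) ⟨y, hy⟩ (mem_univ _) hxy

theorem exists_star {V : Type} [Fintype V] {O : V → V → Prop} (hO : ∀ x y, O x y → ¬ O y x)
    {a b : ℕ} (hab : 1 ≤ a + b) (hcol : ¬ Col O univ (2 * (a + b) - 1)) :
    ∃ x, a ≤ (No O x).card ∧ b ≤ (Ni O x).card := by
  by_contra hno
  push Not at hno
  apply hcol
  rcases Nat.eq_zero_or_pos a with rfl | ha
  · refine (col_of_in hO (b - 1) univ ?_).mono (Subset.refl _) (by omega)
    intro x _
    have h1 := hno x (Nat.zero_le _)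
    have h2 : (univ.filter (fun y => O y x)).card = (Ni O x).card := rfl
    omega
  · rcases Nat.eq_zero_or_pos b with rfl | hb
    · refine (col_of_out hO (a - 1) univ ?_).mono (Subset.refl _) (by omega)
      intro x _
      have h1 : (No O x).card < a := by
        by_contra h
        exact absurd (hno x (by omega)) (by omega)
      have h2 : (univ.filter (fun y => O x y)).card = (No O x).card := rfl
      omega
    · have c1 : Col O (univ.filter (fun x => (No O x).card < a)) (2 * (a - 1) + 1) := by
        apply col_of_out hO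
        intro x hx
        have h1 := (mem_filter.1 hx).2
        have h2 : ((univ.filter (fun x => (No O x).card < a)).filter (fun y => O x y)).card ≤
            (No O x).card := card_le_card (filter_subset_filter _ (subset_univ _))
        omega
      have c2 : Col O (univ.filter (fun x => (Ni O x).card < b)) (2 * (b - 1) + 1) := by
        apply col_of_in hO
        intro x hx
        have h1 := (mem_filter.1 hx).2
        have h2 : ((univ.filter (fun x => (Ni O x).card < b)).filter (fun y => O y x)).card ≤
            (Ni O x).card := card_le_card (filter_subset_filter _ (subset_univ _))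
        omega
      refine (c1.union c2).mono ?_ (by omega)
      intro x _
      simp only [mem_union, mem_filter, mem_univ, true_and]
      by_cases h : (No O x).card < a
      · exact Or.inl h
      · exact Or.inr (hno x (by omega))

/-- A leaf whose neighbour is a leaf: the two vertices are everything. -/
theorem leaf_leaf {W : Type} {H : SimpleGraph W} (hc : H.Preconnected) {v w : W}
    (hv : (H.neighborSet v).ncard = 1) (hw : (H.neighborSet w).ncard = 1) (hvw : H.Adj v w)
    (z : W) : z = v ∨ z = w := by
  obtain ⟨v', hv'⟩ := Set.ncard_eq_one.1 hv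
  obtain ⟨w', hw'⟩ := Set.ncard_eq_one.1 hw
  have e1 : w = v' := by
    have : w ∈ H.neighborSet v := hvw
    rw [hv'] at this; exact this
  have e2 : v = w' := by
    have : v ∈ H.neighborSet w := hvw.symm
    rw [hw'] at this; exact this
  have h := closed_univ hc (C := {z | z = v ∨ z = w}) (p := v) (Or.inl rfl) ?_ z
  · exact h
  · intro x hx y hxy
    rcases hx with rfl | rfl
    · right
      have : y ∈ H.neighborSet x := hxy
      rw [hv', ← e1] at this; exact this
    · left
      have : y ∈ H.neighborSet x := hxy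
      rw [hw', ← e2] at this; exact this

/-- **Havet's conjecture for trees with `k` edges and at least `k - 1` leaves**: every digraph
whose underlying graph has chromatic number at least `k + ℓ` contains every oriented tree with
`k` edges and `ℓ` leaves, provided `ℓ ≥ k - 1`. -/
theorem result : ∀ (k ℓ : ℕ), 1 ≤ k → k ≤ ℓ + 1 →
    ∀ (T : Digraph (Fin (k + 1))),
      (∀ a b : Fin (k + 1), T.Adj a b → ¬ T.Adj b a) →
      (SimpleGraph.fromRel T.Adj).IsTree →
      {v : Fin (k + 1) | ((SimpleGraph.fromRel T.Adj).neighborSet v).ncard = 1}.ncard = ℓ →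
    ∀ (V : Type) [Fintype V] (D : Digraph V),
      ((k + ℓ : ℕ) : ℕ∞) ≤ (SimpleGraph.fromRel D.Adj).chromaticNumber →
      ∃ f : Fin (k + 1) → V, Function.Injective f ∧
        ∀ a b : Fin (k + 1), T.Adj a b → D.Adj (f a) (f b) := by
  intro k ℓ hk hkl T hT htree hleaf V _ D hchi
  obtain ⟨n, hn⟩ : ∃ n, k + ℓ = n + 1 := ⟨k + ℓ - 1, by omega⟩
  rw [hn] at hchi
  obtain ⟨V', _, O, g, hg, hgD, hO, hcol, hdeg⟩ := reduce D.Adj n hchi
  -- it suffices to embed into O
  suffices hsuff : ∃ f : Fin (k + 1) → V', Function.Injective f ∧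
      ∀ v w, T.Adj v w → O (f v) (f w) by
    obtain ⟨f, hf, hfO⟩ := hsuff
    exact ⟨fun v => g (f v), hg.comp hf, fun a b hab => hgD _ _ (hfO a b hab)⟩
  set H := SimpleGraph.fromRel T.Adj with hH
  have hc : H.Preconnected := htree.1.preconnected
  have hadj : ∀ v w, H.Adj v w ↔ T.Adj v w ∨ T.Adj w v := by
    intro v w
    rw [hH, SimpleGraph.fromRel_adj]
    constructor
    · exact fun h => h.2
    · intro h
      refine ⟨?_, h⟩
      rintro rfl
      rcases h with h | h <;> exact hT _ _ h h
  set L := {v : Fin (k + 1) | (H.neighborSet v).ncard = 1} with hL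
  have hcompl : L.ncard + Lᶜ.ncard = k + 1 := by
    have := Set.ncard_add_ncard_compl L
    rw [Nat.card_eq_fintype_card, Fintype.card_fin] at this
    exact this
  have hcW : Fintype.card (Fin (k + 1)) = k + 1 := Fintype.card_fin _
  by_cases hstar : Lᶜ.ncard ≤ 1
  · -- the star case
    obtain ⟨p, hp⟩ : ∃ p, ∀ w, w ≠ p → w ∈ L := by
      rcases Nat.lt_or_ge 0 (Lᶜ.ncard) with h | h
      · obtain ⟨p, hp⟩ := Set.ncard_eq_one.1 (show Lᶜ.ncard = 1 by omega)
        refine ⟨p, fun w hw => ?_⟩
        by_contra hwL
        have : w ∈ Lᶜ := hwL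
        rw [hp] at this
        exact hw this
      · have h0 : Lᶜ = ∅ := by
          rw [← Set.ncard_eq_zero]; omega
        refine ⟨0, fun w _ => ?_⟩
        by_contra hwL
        have : w ∈ Lᶜ := hwL
        rw [h0] at this
        exact this
    have honly : ∀ v w, H.Adj v w → v = p ∨ w = p := by
      intro v w hvw
      by_contra hcon
      push Not at hcon
      rcases leaf_leaf hc (hp v hcon.1) (hp w hcon.2) hvw p with h | h
      · exact hcon.1 h.symm
      · exact hcon.2 h.symm
    have hcov : ∀ w, w ≠ p → (T.Adj p w ∨ T.Adj w p) := by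
      intro w hw
      obtain ⟨z, hz⟩ := Set.ncard_eq_one.1 (hp w hw)
      have hwz : H.Adj w z := by
        have : z ∈ H.neighborSet w := by rw [hz]; rfl
        exact this
      have hzp : z = p := (honly w z hwz).resolve_left hw
      rw [hzp] at hwz
      rw [hadj] at hwz
      exact hwz.symm
    obtain ⟨a, b, hab, hemb⟩ := embed_star (R := T.Adj) hT hO (p := p) hcov
      (fun v w hvw => honly v w ((hadj v w).2 (Or.inl hvw)))
    rw [hcW] at hab
    obtain ⟨x, hx1, hx2⟩ := exists_star hO (a := a) (b := b) (by omega) (fun h =>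
      hcol (h.mono (Subset.refl _) (by omega)))
    exact hemb x hx1 hx2
  · -- the double star case
    have h2 : Lᶜ.ncard = 2 := by omega
    obtain ⟨p, q, hpq, hLpq⟩ := Set.ncard_eq_two.1 h2
    have hleaf' : ∀ w, w ≠ p → w ≠ q → w ∈ L := by
      intro w h3 h4
      by_contra hwL
      have : w ∈ Lᶜ := hwL
      rw [hLpq] at this
      rcases this with h | h
      · exact h3 h
      · exact h4 h
    have hpL : p ∉ L := by
      have : p ∈ Lᶜ := by rw [hLpq]; exact Or.inl rfl
      exact this
    have hqL : q ∉ L := by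
      have : q ∈ Lᶜ := by rw [hLpq]; exact Or.inr rfl
      exact this
    have honly : ∀ v w, H.Adj v w → (v = p ∨ v = q) ∨ (w = p ∨ w = q) := by
      intro v w hvw
      by_contra hcon
      push Not at hcon
      obtain ⟨⟨hv1, hv2⟩, hw1, hw2⟩ := hcon
      rcases leaf_leaf hc (hleaf' v hv1 hv2) (hleaf' w hw1 hw2) hvw p with h | h
      · exact hv1 h.symm
      · exact hw1 h.symm
    have hnb : ∀ w, w ≠ p → w ≠ q → ∃ z, (z = p ∨ z = q) ∧ ∀ y, H.Adj w y ↔ y = z := by
      intro w h3 h4
      obtain ⟨z, hz⟩ := Set.ncard_eq_one.1 (hleaf' w h3 h4)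
      have hiff : ∀ y, H.Adj w y ↔ y = z := by
        intro y
        have : y ∈ H.neighborSet w ↔ y ∈ ({z} : Set _) := by rw [hz]
        exact this
      refine ⟨z, ?_, hiff⟩
      rcases honly w z ((hiff z).2 rfl) with h | h
      · rcases h with h | h
        · exact absurd h h3
        · exact absurd h h4
      · exact h
    have hpqadj : H.Adj p q := by
      by_contra hnot
      have h := closed_univ hc (C := {z | z = p ∨ H.Adj p z}) (p := p) (Or.inl rfl) (by
        intro x hx y hxy
        rcases hx with rfl | hx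
        · exact Or.inr hxy
        · have hxq : x ≠ q := by rintro rfl; exact hnot hx
          have hxp : x ≠ p := by rintro rfl; exact H.loopless.irrefl _ hx
          obtain ⟨z, _, hz⟩ := hnb x hxp hxq
          have h5 : p = z := (hz p).1 hx.symm
          have h6 : y = z := (hz y).1 hxy
          left
          rw [h6, h5]) q
      rcases h with h | h
      · exact hpq h.symm
      · exact hnot h
    -- a general version, with the arc from p to q
    have main : ∀ p q : Fin (k + 1), p ≠ q → p ∉ L → q ∉ L → T.Adj p q →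
        (∀ v w, H.Adj v w → (v = p ∨ v = q) ∨ (w = p ∨ w = q)) →
        (∀ w, w ≠ p → w ≠ q → ∃ z, (z = p ∨ z = q) ∧ ∀ y, H.Adj w y ↔ y = z) →
        ∃ f : Fin (k + 1) → V', Function.Injective f ∧ ∀ v w, T.Adj v w → O (f v) (f w) := by
      intro p q hpq hpL hqL hTpq honly hnb
      have hHpq : H.Adj p q := (hadj p q).2 (Or.inl hTpq)
      have hcov : ∀ w, w ≠ p → w ≠ q → (T.Adj p w ∨ T.Adj w p) ∨ (T.Adj q w ∨ T.Adj w q) := by
        intro w h3 h4
        obtain ⟨z, hz, hz'⟩ := hnb w h3 h4
        rcases hz with rfl | rfl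
        · left
          exact ((hadj w z).1 ((hz' z).2 rfl)).symm
        · right
          exact ((hadj w z).1 ((hz' z).2 rfl)).symm
      have hexc : ∀ w, (T.Adj p w ∨ T.Adj w p) → ¬ (T.Adj q w ∨ T.Adj w q) := by
        intro w h5 h6
        have h7 : H.Adj w p := (hadj w p).2 h5.symm
        have h8 : H.Adj w q := (hadj w q).2 h6.symm
        have h3 : w ≠ p := by rintro rfl; exact H.loopless.irrefl _ h7
        have h4 : w ≠ q := by rintro rfl; exact H.loopless.irrefl _ h8
        obtain ⟨z, _, hz'⟩ := hnb w h3 h4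
        exact hpq (((hz' p).1 h7).trans ((hz' q).1 h8).symm)
      obtain ⟨a, b, c, d, hsum, hab, hcd, hemb⟩ := embed_double (R := T.Adj) hT hO hTpq hcov hexc
        (fun v w hvw => honly v w ((hadj v w).2 (Or.inl hvw)))
      rw [hcW] at hsum
      have hab1 : 1 ≤ a + b := by
        by_contra hempty
        apply hpL
        have : H.neighborSet p = {q} := by
          ext w
          simp only [SimpleGraph.mem_neighborSet, Set.mem_singleton_iff]
          constructor
          · intro hw
            by_contra hwq
            exact hempty (hab w hwq ((hadj p w).1 hw))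
          · rintro rfl; exact hHpq
        change (H.neighborSet p).ncard = 1
        rw [this, Set.ncard_singleton]
      have hcd1 : 1 ≤ c + d := by
        by_contra hempty
        apply hqL
        have : H.neighborSet q = {p} := by
          ext w
          simp only [SimpleGraph.mem_neighborSet, Set.mem_singleton_iff]
          constructor
          · intro hw
            by_contra hwq
            exact hempty (hcd w hwq ((hadj q w).1 hw))
          · rintro rfl; exact hHpq.symm
        change (H.neighborSet q).ncard = 1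
        rw [this, Set.ncard_singleton]
      have hn2 : n = 2 * (a + b + c + d) := by omega
      subst hn2
      obtain ⟨x, y, hxy⟩ := exists_good hO hab1 hcd1 hdeg hcol
      exact hemb x y hxy
    rcases (hadj p q).1 hpqadj with h | h
    · exact main p q hpq hpL hqL h honly hnb
    · refine main q p hpq.symm hqL hpL h ?_ ?_
      · intro v w hvw
        rcases honly v w hvw with h1 | h1
        · exact Or.inl h1.symm
        · exact Or.inr h1.symm
      · intro w h3 h4
        obtain ⟨z, hz, hz'⟩ := hnb w h4 h3
        exact ⟨z, hz.symm, hz'⟩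

end Pool.Agent.Results.MP_35582f_co.DoubleStars
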